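import Pool.Agent.TH890.FN.Stk

open NumberField

namespace Pool.Agent.TH890.FN

open Pool.Agent.TH965.Stk

/-- `K` is totally real. -/
def IsTR (K : SubQ) : Prop := IsTotallyReal K.toIF

/-- `c` is the complex conjugation of an embedding of the algebraic closure of `ℚ` above the
infinite place `v` of `K`. -/
def IsCCAt (K : SubQ) (v : InfinitePlace K.toIF) (c : GQ) : Prop :=
  ∃ τ : AlgebraicClosure ℚ →+* ℂ, (∀ x, τ (c.toAut x) = (starRingEnd ℂ) (τ x)) ∧
    InfinitePlace.mk (τ.comp (algebraMap K.toIF (AlgebraicClosure ℚ))) = v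

/-- `ψ` is even at the infinite places in `E` and odd at the others. -/
def EvenAt {K : SubQ} (ψ : LinChar K) (E : Set (InfinitePlace K.toIF)) : Prop :=
  ∀ (v : InfinitePlace K.toIF) (c : G K), IsCCAt K v c →
    (v ∈ E → ψ.hom c = 1) ∧ (v ∉ E → ψ.hom c = -1)

/-- `s ^ 2` is an element of `K` which is negative at the infinite places in `E` and positive at
the others. -/
def NegAt (K : SubQ) (E : Set (InfinitePlace K.toIF)) (s : AlgebraicClosure ℚ) : Prop :=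
  ∃ a : K.toIF, s ^ 2 = (a : AlgebraicClosure ℚ) ∧ ∀ φ : K.toIF →+* ℂ,
    (InfinitePlace.mk φ ∈ E → (φ a).re < 0) ∧ (InfinitePlace.mk φ ∉ E → 0 < (φ a).re)

theorem cc_exists {K : SubQ} (hK : IsNF K) (hR : IsTR K) (v : InfinitePlace K.toIF) :
    ∃ c : G K, IsCCAt K v c := by
  have hK' : NumberField K.toIF := hK
  have hR' : IsTotallyReal K.toIF := hR
  let τ : AlgebraicClosure ℚ →+* ℂ := ComplexEmbedding.lift (AlgebraicClosure ℚ) v.embedding
  have h1 : τ.comp (algebraMap K.toIF (AlgebraicClosure ℚ)) = v.embedding :=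
    ComplexEmbedding.lift_comp_algebraMap (AlgebraicClosure ℚ) v.embedding
  have hv : v.IsReal := hR'.isReal v
  have hre : ComplexEmbedding.IsReal v.embedding := InfinitePlace.isReal_iff.1 hv
  have h2 : ((starRingEnd ℂ).comp τ).comp (algebraMap K.toIF (AlgebraicClosure ℚ)) =
      τ.comp (algebraMap K.toIF (AlgebraicClosure ℚ)) := by
    rw [RingHom.comp_assoc, h1]
    ext x
    exact RingHom.congr_fun hre x
  obtain ⟨σ, hσ⟩ := ComplexEmbedding.exists_comp_symm_eq_of_comp_eq τ ((starRingEnd ℂ).comp τ)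
    h2.symm
  have hσ' : ∀ x, τ (σ.symm x) = (starRingEnd ℂ) (τ x) := fun x => RingHom.congr_fun hσ x
  refine ⟨(IntermediateField.fixingSubgroupEquiv K.toIF).symm σ.symm, τ, fun x => hσ' x, ?_⟩
  rw [h1]
  exact InfinitePlace.mk_embedding v

theorem NegAt.ne_zero {K : SubQ} {E : Set (InfinitePlace K.toIF)} {s : AlgebraicClosure ℚ}
    (h : NegAt K E s) : s ≠ 0 := by
  obtain ⟨a, ha, hE⟩ := h
  rintro rfl
  obtain ⟨τ0⟩ : Nonempty (AlgebraicClosure ℚ →+* ℂ) :=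
    ⟨(IsAlgClosed.lift (R := ℚ) (S := AlgebraicClosure ℚ) (M := ℂ)).toRingHom⟩
  have ha0 : a = 0 := by
    apply Subtype.ext
    rw [← ha]
    simp
  have := hE (τ0.comp (algebraMap K.toIF (AlgebraicClosure ℚ)))
  rw [ha0, map_zero, Complex.zero_re] at this
  by_cases h : InfinitePlace.mk (τ0.comp (algebraMap K.toIF (AlgebraicClosure ℚ))) ∈ E
  · exact lt_irrefl _ (this.1 h)
  · exact lt_irrefl _ (this.2 h)

theorem NegAt.mem {K : SubQ} {E : Set (InfinitePlace K.toIF)} {s : AlgebraicClosure ℚ}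
    (h : NegAt K E s) : s ^ 2 ∈ K.toIF := by
  obtain ⟨a, ha, -⟩ := h
  rw [ha]
  exact a.2

theorem NegAt.act {K : SubQ} {E : Set (InfinitePlace K.toIF)} {s : AlgebraicClosure ℚ}
    (h : NegAt K E s) {v : InfinitePlace K.toIF} {c : GQ} (hc : c ∈ G K) (hv : IsCCAt K v c) :
    (v ∈ E → c.toAut s ≠ s) ∧ (v ∉ E → c.toAut s = s) := by
  obtain ⟨a, ha, hE⟩ := id h
  obtain ⟨τ, hτ, rfl⟩ := hv
  have hq := Pool.Agent.TH965.St.quad_sign (K := K.toIF) (τ := τ) (c := c) hτ hc ha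
  constructor
  · intro hv h1
    have h2 := hq.2 ((hE _).1 hv)
    have h3 : c.toAut s = -s := h2
    rw [h1] at h3
    exact h.ne_zero (self_eq_neg.1 h3)
  · intro hv
    exact hq.1 ((hE _).2 hv)

theorem mem_adj {K : SubQ} {s : AlgebraicClosure ℚ} (g : GQ) :
    g ∈ G (adj K s) ↔ g ∈ G K ∧ g.toAut s = s :=
  Pool.Agent.TH965.St.mem_fix_sup K.toIF s g

/-- the restriction of `ψ` to `K(s)` is odd -/
theorem lift_odd {K : SubQ} {E : Set (InfinitePlace K.toIF)} {s : AlgebraicClosure ℚ}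
    (h : NegAt K E s) (ψ : LinChar K) (hψ : EvenAt ψ E) (φ : LinChar (adj K s))
    (hφ : IsLift ψ s φ) : φ.HasSign (-1) := by
  rintro ⟨c, hc⟩ hcc
  obtain ⟨τ, hτ⟩ := hcc
  have hcK := ((mem_adj c).1 hc).1
  have hcs := ((mem_adj c).1 hc).2
  have hat : IsCCAt K (InfinitePlace.mk (τ.comp (algebraMap K.toIF (AlgebraicClosure ℚ)))) c :=
    ⟨τ, hτ, rfl⟩
  have hn : InfinitePlace.mk (τ.comp (algebraMap K.toIF (AlgebraicClosure ℚ))) ∉ E := fun hv =>
    (h.act hcK hat).1 hv hcs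
  rw [hφ c hc hcK]
  exact (hψ _ ⟨c, hcK⟩ hat).2 hn

theorem exists_twist {K : SubQ} {s : AlgebraicClosure ℚ} (hs0 : s ≠ 0) (hs : s ^ 2 ∈ K.toIF)
    (ψ : LinChar K) : ∃ χ : LinChar K, IsTwist ψ s χ := by
  classical
  obtain ⟨ω, h1, h2⟩ := exists_quad (K := K.toIF) hs0 hs
  refine ⟨LinChar.new (K := K) (ψ.old.mul ω), fun g => ?_⟩
  show ψ.hom g * ω.hom g = _
  split_ifs with hg
  · have : ω.hom g = 1 := h1 g hg
    rw [this, mul_one]
  · have : ω.hom g = -1 := h2 g hg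
    rw [this]; simp

theorem exists_lift {K : SubQ} (s : AlgebraicClosure ℚ) (ψ : LinChar K) :
    ∃ φ : LinChar (adj K s), IsLift ψ s φ :=
  ⟨LinChar.new (K := adj K s) (ψ.old.res (K' := (K.toIF ⊔ IntermediateField.adjoin ℚ {s} :
      IntermediateField ℚ (AlgebraicClosure ℚ))) le_sup_left), fun _ _ _ => rfl⟩

/-- the restriction has the same value -/
theorem lift_eq {M : Type} [CommGroup M] (A : Family M)
    (odd : ∀ K : SubQ, IsNF K → IsTR K → ∀ ψ : LinChar K, ψ.HasSign (-1) → A.D K ψ.fn = 1)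
    {K : SubQ} (hK : IsNF K) (hR : IsTR K) {E : Set (InfinitePlace K.toIF)}
    {s : AlgebraicClosure ℚ} (h : NegAt K E s) (ψ : LinChar K) (hψ : EvenAt ψ E)
    (φ : LinChar (adj K s)) (hφ : IsLift ψ s φ) : A.D (adj K s) φ.fn = A.D K ψ.fn := by
  classical
  by_cases hsK : ∀ g ∈ K.toIF.fixingSubgroup, g s = s
  · exact triv_rel (K := K.toIF) hsK ψ.old φ.old hφ A.old
  push Not at hsK
  obtain ⟨χ, hχ⟩ := exists_twist h.ne_zero h.mem ψ
  have e := quad_rel (K := K.toIF) hK h.ne_zero h.mem hsK ψ.old χ.old hχ φ.old hφ A.old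
  have e2 : A.D (adj K s) φ.fn = A.D K ψ.fn * A.D K χ.fn := e
  rw [e2, odd K hK hR χ ?_, mul_one]
  rintro c ⟨τ, hτ⟩
  have hat : IsCCAt K (InfinitePlace.mk (τ.comp (algebraMap K.toIF (AlgebraicClosure ℚ)))) c :=
    ⟨τ, hτ, rfl⟩
  rw [hχ c]
  by_cases hv : InfinitePlace.mk (τ.comp (algebraMap K.toIF (AlgebraicClosure ℚ))) ∈ E
  · rw [if_neg ((h.act c.2 hat).1 hv), (hψ _ c hat).1 hv]
  · rw [if_pos ((h.act c.2 hat).2 hv), (hψ _ c hat).2 hv]

/-- the restriction has the same order -/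
theorem lift_order {K : SubQ} (hK : IsNF K) (hR : IsTR K) {v : InfinitePlace K.toIF}
    {s : AlgebraicClosure ℚ} (h : NegAt K {v} s) (ψ : LinChar K) (hψ : EvenAt ψ {v})
    (φ : LinChar (adj K s)) (hφ : IsLift ψ s φ) : orderOf φ.hom = orderOf ψ.hom := by
  rw [orderOf_eq_orderOf_iff]
  intro k
  constructor
  · intro h1
    obtain ⟨c, hc⟩ := cc_exists hK hR v
    have hcv := (hψ v c hc).1 (Set.mem_singleton v)
    have hcs := (h.act c.2 hc).1 (Set.mem_singleton v)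
    have h2 : ∀ g : GQ, ∀ (hg : g ∈ G K), g.toAut s = s → ψ.hom ⟨g, hg⟩ ^ k = 1 := by
      intro g hg hgs
      have h3 := DFunLike.congr_fun h1 (⟨g, (mem_adj g).2 ⟨hg, hgs⟩⟩ : G (adj K s))
      rw [MonoidHom.pow_apply, hφ g _ hg] at h3
      exact h3
    ext g
    rw [MonoidHom.pow_apply]
    by_cases hgs : (g : GQ).toAut s = s
    · rw [h2 g g.2 hgs]
      rfl
    · have hpm : ∀ g : GQ, g ∈ G K → g.toAut s ≠ s → g.toAut s = -s := by
        intro g hg hne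
        have h4 : (g.toAut s) ^ 2 = s ^ 2 := by
          rw [← map_pow]
          exact (IntermediateField.mem_fixingSubgroup_iff _ _).1 hg _ h.mem
        exact (sq_eq_sq_iff_eq_or_eq_neg.1 h4).resolve_left hne
      have h5 : ((g * c : G K) : GQ).toAut s = s := by
        show (g : GQ).toAut ((c : GQ).toAut s) = s
        rw [hpm c c.2 hcs, map_neg, hpm g g.2 hgs, neg_neg]
      have h6 := h2 _ (g * c : G K).2 h5
      have h7 : ψ.hom (g * c) ^ k = 1 := h6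
      rw [map_mul, hcv, mul_one] at h7
      rw [h7]
      rfl
  · intro h1
    ext g
    rw [MonoidHom.pow_apply, hφ g g.2 ((mem_adj (g : GQ)).1 g.2).1]
    have h3 := DFunLike.congr_fun h1 (⟨g, ((mem_adj (g : GQ)).1 g.2).1⟩ : G K)
    rw [MonoidHom.pow_apply] at h3
    rw [h3]
    rfl

/-- an odd character of `K(s)` which extends to `K` has an extension even exactly at `v` -/
theorem exists_even {K : SubQ} (hK : IsNF K) (hR : IsTR K) {v : InfinitePlace K.toIF}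
    {s : AlgebraicClosure ℚ} (h : NegAt K {v} s) (φ : LinChar (adj K s)) (hs : φ.HasSign (-1))
    (hφ : ∃ ψ : LinChar K, IsLift ψ s φ) : ∃ ψ : LinChar K, IsLift ψ s φ ∧ EvenAt ψ {v} := by
  classical
  have key : ∀ ψ : LinChar K, IsLift ψ s φ → ∀ c0 : G K, IsCCAt K v c0 → ψ.hom c0 = 1 →
      EvenAt ψ {v} := by
    intro ψ hψ c0 hc0 h1 w c hc
    constructor
    · intro hw
      rw [Set.mem_singleton_iff] at hw
      obtain ⟨τ, hτ, hm⟩ := hc
      obtain ⟨τ0, hτ0, hm0⟩ := hc0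
      rw [← h1]
      refine Pool.Agent.TH965.St.LinChar.eq_of_cj (K := K.toIF) ψ.old (c := c) (c' := c0)
        (τ := τ) (τ' := τ0) hτ hτ0
        (Pool.Agent.TH965.St.comp_eq_of_mk_eq (K := K.toIF) (c := (c : GQ).toAut) hτ c.2 ?_)
      rw [hm, hw, hm0]
    · intro hw
      have hcs := (h.act c.2 hc).2 hw
      obtain ⟨τ, hτ, hm⟩ := hc
      have h3 := hs ⟨c, (mem_adj (c : GQ)).2 ⟨c.2, hcs⟩⟩ ⟨τ, hτ⟩
      rw [hψ c _ c.2] at h3
      exact h3
  obtain ⟨ψ, hψ⟩ := hφ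
  obtain ⟨c0, hc0⟩ := cc_exists hK hR v
  have hcs := (h.act c0.2 hc0).1 (Set.mem_singleton v)
  have hsq : ψ.hom c0 = 1 ∨ ψ.hom c0 = -1 := by
    obtain ⟨τ, hτ, -⟩ := id hc0
    have h2 : c0 * c0 = 1 := Subtype.ext (Pool.Agent.TH965.St.Cj.sq (τ := τ) (c := (c0 : GQ).toAut) hτ)
    have h3 : ψ.hom c0 * ψ.hom c0 = 1 := by rw [← map_mul, h2, map_one]
    have h4 : (ψ.hom c0 : ℂ) * (ψ.hom c0 : ℂ) = 1 := by
      rw [← Units.val_mul, h3, Units.val_one]
    rcases mul_self_eq_one_iff.1 h4 with h5 | h5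
    · left
      exact Units.ext h5
    · right
      exact Units.ext (by rw [h5]; simp)
  rcases hsq with h1 | h1
  · exact ⟨ψ, hψ, key ψ hψ c0 hc0 h1⟩
  · obtain ⟨χ, hχ⟩ := exists_twist h.ne_zero h.mem ψ
    have hl : IsLift χ s φ := by
      intro g hg hgK
      rw [hψ g hg hgK, hχ ⟨g, hgK⟩, if_pos ((mem_adj g).1 hg).2]
    refine ⟨χ, hl, key χ hl c0 hc0 ?_⟩
    rw [hχ c0, if_neg hcs, h1, neg_neg]

/-- existence, with a congruence -/
theorem exists_neg {K : SubQ} (hK : IsNF K) (hR : IsTR K) (E : Set (InfinitePlace K.toIF))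
    (m : ℕ) (hm : 0 < m) : ∃ s, NegAt K E s ∧ ∃ b : K.toIF, IsIntegral ℤ b ∧
      s ^ 2 = 1 + (m : AlgebraicClosure ℚ) * (b : AlgebraicClosure ℚ) := by
  classical
  have hK' : NumberField K.toIF := hK
  obtain ⟨a, ha⟩ := Pool.Agent.TH965.St.exists_sign K.toIF (fun v => v ∉ E)
  obtain ⟨d, hd0, hd⟩ : ∃ d : ℕ, 0 < d ∧ IsIntegral ℤ ((d : K.toIF) * a) := by
    obtain ⟨y, hy0, hy⟩ := ((IsFractionRing.isAlgebraic_iff ℤ ℚ K.toIF).2
      (Algebra.IsAlgebraic.isAlgebraic a)).exists_integral_multiple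
    refine ⟨y.natAbs, Int.natAbs_pos.2 hy0, ?_⟩
    rw [zsmul_eq_mul] at hy
    rcases Int.natAbs_eq y with h | h
    · rw [h] at hy
      simpa using hy
    · rw [h] at hy
      have := hy.neg
      simpa using this
  have hfin : Fintype (K.toIF →+* ℂ) := inferInstance
  obtain ⟨N, hN⟩ := exists_nat_gt (∑ φ : K.toIF →+* ℂ, 1 / |(φ a).re|)
  have hne : ∀ φ : K.toIF →+* ℂ, 0 < |(φ a).re| := by
    intro φ
    rw [abs_pos]
    by_cases hφ : InfinitePlace.mk φ ∉ E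
    · exact ((ha φ).1 hφ).ne'
    · exact ((ha φ).2 hφ).ne
  have hbig : ∀ φ : K.toIF →+* ℂ, 1 < (N : ℝ) * |(φ a).re| := by
    intro φ
    have h1 : 1 / |(φ a).re| ≤ ∑ φ : K.toIF →+* ℂ, 1 / |(φ a).re| :=
      Finset.single_le_sum (f := fun φ : K.toIF →+* ℂ => 1 / |(φ a).re|)
        (fun i _ => by positivity) (Finset.mem_univ φ)
    have h2 := lt_of_le_of_lt h1 hN
    rwa [div_lt_iff₀ (hne φ)] at h2
  let b : K.toIF := (N : K.toIF) * ((d : K.toIF) * a)
  have hb : IsIntegral ℤ b := (isIntegral_natCast (R := ℤ) (B := K.toIF) (a := N)).mul hd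
  obtain ⟨s, hs⟩ := IsAlgClosed.exists_pow_nat_eq (k := AlgebraicClosure ℚ)
    ((1 + (m : K.toIF) * b : K.toIF) : AlgebraicClosure ℚ) (n := 2) (by norm_num)
  have hmd : (1 : ℝ) ≤ (m : ℝ) * d := by
    have h1 : (1 : ℝ) ≤ m := by exact_mod_cast hm
    have h2 : (1 : ℝ) ≤ d := by exact_mod_cast hd0
    nlinarith
  refine ⟨s, ⟨1 + (m : K.toIF) * b, hs, fun φ => ?_⟩, b, hb, ?_⟩
  · have hre : (φ (1 + (m : K.toIF) * b)).re = 1 + (m : ℝ) * d * ((N : ℝ) * (φ a).re) := by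
      simp only [b, map_add, map_mul, map_one, map_natCast]
      have : (m : ℂ) * ((N : ℂ) * ((d : ℂ) * φ a)) = (((m : ℝ) * N * d : ℝ) : ℂ) * φ a := by
        push_cast; ring
      rw [Complex.add_re, Complex.one_re, this, Complex.re_ofReal_mul]
      ring
    rw [hre]
    have hb1 := hbig φ
    constructor
    · intro hv
      have h1 := (ha φ).2 (not_not.2 hv)
      rw [abs_of_neg h1] at hb1
      have h2 : (N : ℝ) * (φ a).re < -1 := by linarith
      nlinarith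
    · intro hv
      have h1 := (ha φ).1 hv
      rw [abs_of_pos h1] at hb1
      nlinarith
  · rw [hs]
    push_cast
    rfl

end Pool.Agent.TH890.FN
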