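import Pool.Agent.TH965.St.Transfer

open NumberField

namespace Pool.Agent.TH890.FN

open Pool.Agent.TH965.St

variable {K : IntermediateField ℚ Qb}

theorem fn_ext {ψ φ : LinChar K} (h : ∀ g, ψ.hom g = φ.hom g) : ψ.fn = φ.fn := by
  funext g
  by_cases hg : g ∈ K.fixingSubgroup
  · rw [ψ.fn_of_mem hg, φ.fn_of_mem hg, h]
  · rw [ψ.fn_of_not_mem hg, φ.fn_of_not_mem hg]

theorem field_ext {K L : IntermediateField ℚ Qb}
    (h : ∀ g : GQ, g ∈ K.fixingSubgroup ↔ g ∈ L.fixingSubgroup) : K = L :=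
  le_antisymm (fixing_le_iff.2 fun g hg => (h g).2 hg) (fixing_le_iff.2 fun g hg => (h g).1 hg)

theorem transport {K' L' : IntermediateField ℚ Qb} (e : K' = L') (φ : LinChar K') (φ' : LinChar L')
    (h : ∀ g (h1 : g ∈ K'.fixingSubgroup) (h2 : g ∈ L'.fixingSubgroup),
      φ.hom ⟨g, h1⟩ = φ'.hom ⟨g, h2⟩) {M : Type} [CommGroup M] (A : Family M) :
    A.D K' φ.fn = A.D L' φ'.fn := by
  subst e
  rw [fn_ext (fun g => h g.1 g.2 g.2)]

/-- the quadratic character attached to a square root `s` of an element of `K` -/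
theorem exists_quad {s : Qb} (hs0 : s ≠ 0) (hs : s ^ 2 ∈ K) : ∃ ω : LinChar K,
    (∀ g : K.fixingSubgroup, (g : GQ) s = s → ω.hom g = 1) ∧
    (∀ g : K.fixingSubgroup, (g : GQ) s ≠ s → ω.hom g = -1) := by
  obtain ⟨τ0⟩ : Nonempty (Qb →+* ℂ) := ⟨(IsAlgClosed.lift (R := ℚ) (S := Qb) (M := ℂ)).toRingHom⟩
  have hp2 : Fact (Nat.Prime 2) := ⟨Nat.prime_two⟩
  have hneg : ∀ g ∈ K.fixingSubgroup, g (-1 : Qb) = -1 := fun g _ => by rw [map_neg, map_one]
  have hyp : ∀ g ∈ K.fixingSubgroup, g (s ^ 2) = s ^ 2 := fun g hg =>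
    (IntermediateField.mem_fixingSubgroup_iff _ _).1 hg _ hs
  refine ⟨kum prim_neg_one τ0 s hs0 hyp hneg 1, fun g hg => ?_, fun g hg => ?_⟩
  · ext
    show τ0 ((g : GQ) s / s) ^ 1 = 1
    rw [hg, div_self hs0, map_one, one_pow]
  · have h1 : ((g : GQ) s) ^ 2 = s ^ 2 := by rw [← map_pow, hyp g g.2]
    rcases sq_eq_sq_iff_eq_or_eq_neg.1 h1 with h | h
    · exact absurd h hg
    · ext
      show τ0 ((g : GQ) s / s) ^ 1 = -1
      rw [h, neg_div, div_self hs0, map_neg, map_one, pow_one]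

theorem neg_one_ne : (-1 : ℂˣ) ≠ 1 := by
  intro h
  have h2 : (-1 : ℂ) = 1 := by
    have := congrArg Units.val h
    simpa using this
  norm_num at h2

open Classical in
/-- the relation between the quadratic twist and the quadratic extension -/
theorem quad_rel (hK : NumberField K) {s : Qb} (hs0 : s ≠ 0) (hs : s ^ 2 ∈ K)
    (hsK : ∃ g ∈ K.fixingSubgroup, g s ≠ s) (ψ φ : LinChar K)
    (hφ : ∀ g : K.fixingSubgroup, φ.hom g = if (g : GQ) s = s then ψ.hom g else -ψ.hom g)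
    (φ' : LinChar (K ⊔ IntermediateField.adjoin ℚ {s} : IntermediateField ℚ Qb))
    (hφ' : ∀ (g : GQ) (h : g ∈ (K ⊔ IntermediateField.adjoin ℚ {s}).fixingSubgroup)
      (h' : g ∈ K.fixingSubgroup), φ'.hom ⟨g, h⟩ = ψ.hom ⟨g, h'⟩)
    {M : Type} [CommGroup M] (A : Family M) :
    A.D (K ⊔ IntermediateField.adjoin ℚ {s}) φ'.fn = A.D K ψ.fn * A.D K φ.fn := by
  obtain ⟨ω, h1, h2⟩ := exists_quad (K := K) hs0 hs
  have hsq : ∀ g, ω.hom g ^ 2 = 1 := by
    intro g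
    by_cases h : (g : GQ) s = s
    · rw [h1 g h, one_pow]
    · rw [h2 g h]; simp
  obtain ⟨K', hK', hle, hfix, hD⟩ := quad_field hK ω hsq (by
    obtain ⟨g, hg, hgs⟩ := hsK
    exact ⟨⟨g, hg⟩, by rw [h2 ⟨g, hg⟩ hgs]; exact neg_one_ne⟩)
  have e : K' = (K ⊔ IntermediateField.adjoin ℚ {s} : IntermediateField ℚ Qb) := by
    refine field_ext fun g => ?_
    rw [mem_fix_sup]
    constructor
    · intro hg
      have hgK := IntermediateField.fixingSubgroup_le hle hg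
      refine ⟨hgK, ?_⟩
      by_contra hne
      have h3 := (hfix ⟨g, hgK⟩).1 hg
      rw [h2 ⟨g, hgK⟩ hne] at h3
      exact neg_one_ne h3
    · rintro ⟨hgK, hgs⟩
      exact (hfix ⟨g, hgK⟩).2 (h1 ⟨g, hgK⟩ hgs)
  have e1 := hD A ψ
  rw [← transport e (ψ.res hle) φ' (fun g a b => (hφ' g b
    (IntermediateField.fixingSubgroup_le hle a)).symm) A, e1]
  congr 2
  refine fn_ext fun g => ?_
  show ψ.hom g * ω.hom g = φ.hom g
  rw [hφ]
  split_ifs with h
  · rw [h1 g h, mul_one]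
  · rw [h2 g h]; simp

/-- no new field -/
theorem triv_rel {s : Qb} (hsK : ∀ g ∈ K.fixingSubgroup, g s = s) (ψ : LinChar K)
    (φ' : LinChar (K ⊔ IntermediateField.adjoin ℚ {s} : IntermediateField ℚ Qb))
    (hφ' : ∀ (g : GQ) (h : g ∈ (K ⊔ IntermediateField.adjoin ℚ {s}).fixingSubgroup)
      (h' : g ∈ K.fixingSubgroup), φ'.hom ⟨g, h⟩ = ψ.hom ⟨g, h'⟩)
    {M : Type} [CommGroup M] (A : Family M) :
    A.D (K ⊔ IntermediateField.adjoin ℚ {s}) φ'.fn = A.D K ψ.fn := by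
  have e : K = (K ⊔ IntermediateField.adjoin ℚ {s} : IntermediateField ℚ Qb) :=
    field_ext fun g => by
      rw [mem_fix_sup]
      exact ⟨fun h => ⟨h, hsK g h⟩, fun h => h.1⟩
  exact (transport e ψ φ' (fun g a b => (hφ' g b a).symm) A).symm

end Pool.Agent.TH890.FN
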