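import Pool.Agent.TH890.FN.Stk
import Pool.Agent.TH944.Del.Fin

open NumberField

namespace Pool.Agent.TH890.FN

open Pool.Agent.TH965.Stk Pool.Agent.TH944.Tw

/-- `s` is a nonzero square root of an element of `K` which is positive at all real places. -/
def PosRoot (K : SubQ) (s : AlgebraicClosure ℚ) : Prop :=
  s ≠ 0 ∧ s ^ 2 ∈ K.toIF ∧ ∀ c ∈ G K, IsCC c → c.toAut s = s

theorem st_dich {M : Type} [CommGroup M] (A : Pool.Agent.TH965.St.Family M) {K : SubQ}
    (hK : IsNF K) {s : AlgebraicClosure ℚ} (hs0 : s ≠ 0) (hs : s ^ 2 ∈ K.toIF) (ψ : LinChar K)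
    (h : A.D K.toIF ψ.fn ≠ 1) :
    (∃ φ : LinChar K, IsTwist ψ s φ ∧ A.D K.toIF φ.fn ≠ 1) ∨
    (∃ φ : LinChar (adj K s), IsLift ψ s φ ∧ A.D (adj K s).toIF φ.fn ≠ 1) := by
  classical
  obtain ⟨ω, h1, h2⟩ := exists_quad (K := K.toIF) hs0 hs
  let φ : LinChar K := LinChar.new (K := K) (ψ.old.mul ω)
  let φ' : LinChar (adj K s) := LinChar.new (K := adj K s)
    (ψ.old.res (K' := (K.toIF ⊔ IntermediateField.adjoin ℚ {s} :
      IntermediateField ℚ (AlgebraicClosure ℚ))) le_sup_left)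
  have hφ : IsTwist ψ s φ := by
    intro g
    show ψ.hom g * ω.hom g = _
    split_ifs with hg
    · have : ω.hom g = 1 := h1 g hg
      rw [this, mul_one]
    · have : ω.hom g = -1 := h2 g hg
      rw [this]; simp
  have hφ' : IsLift ψ s φ' := fun g _ _ => rfl
  by_cases hsK : ∀ g ∈ K.toIF.fixingSubgroup, g s = s
  · right
    refine ⟨φ', hφ', ?_⟩
    have e := triv_rel (K := K.toIF) hsK ψ.old φ'.old hφ' A
    have e2 : A.D (adj K s).toIF φ'.fn = A.D K.toIF ψ.fn := e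
    rw [e2]
    exact h
  · push Not at hsK
    have e := quad_rel (K := K.toIF) hK hs0 hs hsK ψ.old φ.old hφ φ'.old hφ' A
    have e2 : A.D (adj K s).toIF φ'.fn = A.D K.toIF ψ.fn * A.D K.toIF φ.fn := e
    by_contra hcon
    push Not at hcon
    have e3 := hcon.1 φ hφ
    have e4 := hcon.2 φ' hφ'
    rw [e3, e4, mul_one] at e2
    exact h e2.symm

theorem adj_nf {K : SubQ} (hK : IsNF K) (s : AlgebraicClosure ℚ) : IsNF (adj K s) :=
  Pool.Agent.TH965.St.nf_sup hK (Pool.Agent.TH965.St.nf_adjoin s)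

theorem adj_le {K : SubQ} {s : AlgebraicClosure ℚ} {g : GQ} (h : g ∈ G (adj K s)) : g ∈ G K :=
  ((Pool.Agent.TH965.St.mem_fix_sup K.toIF s g).1 h).1

theorem adj_r2 {K : SubQ} (hK : IsNF K) (s : AlgebraicClosure ℚ) : r2 K ≤ r2 (adj K s) := by
  have h1 : NumberField K.toIF := hK
  have h2 : NumberField (K.toIF ⊔ IntermediateField.adjoin ℚ {s} :
      IntermediateField ℚ (AlgebraicClosure ℚ)) := adj_nf hK s
  rw [r2_old K hK, r2_old _ (adj_nf hK s)]
  exact Pool.Agent.TH965.St.r2_mono (F := K.toIF)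
    (F' := (K.toIF ⊔ IntermediateField.adjoin ℚ {s} :
      IntermediateField ℚ (AlgebraicClosure ℚ))) le_sup_left

theorem twist_sign {K : SubQ} {s : AlgebraicClosure ℚ} (hs : PosRoot K s) {ψ φ : LinChar K}
    {e : ℂˣ} (hψ : ψ.HasSign e) (h : IsTwist ψ s φ) : φ.HasSign e := by
  intro c hc
  have h1 := h c
  rw [if_pos (hs.2.2 c c.2 hc)] at h1
  rw [h1]
  exact hψ c hc

theorem lift_sign {K : SubQ} {s : AlgebraicClosure ℚ} {ψ : LinChar K} {φ : LinChar (adj K s)}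
    {e : ℂˣ} (hψ : ψ.HasSign e) (h : IsLift ψ s φ) : φ.HasSign e := by
  intro c hc
  have h1 := h c.1 c.2 (adj_le c.2)
  have h2 : φ.hom c = ψ.hom ⟨c.1, adj_le c.2⟩ := h1
  rw [h2]
  exact hψ _ hc

theorem natRoot {K : SubQ} {s : AlgebraicClosure ℚ} {t : ℕ} (ht : 1 ≤ t) (hs : s ^ 2 = t) :
    PosRoot K s := by
  refine ⟨?_, ?_, ?_⟩
  · rintro rfl
    rw [zero_pow (by norm_num)] at hs
    have h2 : (t : AlgebraicClosure ℚ) ≠ 0 := Nat.cast_ne_zero.2 (by omega)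
    exact h2 hs.symm
  · rw [hs]
    exact natCast_mem _ t
  · rintro c - ⟨τ, hτ⟩
    have h1 := (Pool.Agent.TH965.St.quad_sign' (j := τ) (c := c.toAut) hτ (s := s)
      (a := (t : AlgebraicClosure ℚ)) (map_natCast _ t) hs).1
    apply h1
    rw [map_natCast]
    have : (0 : ℝ) < t := by exact_mod_cast ht
    simpa using this

end Pool.Agent.TH890.FN
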