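import Pool.Agent.TH890.FN.Stk

open NumberField

namespace Pool.Agent.TH890.FN

open Pool.Agent.TH965.Stk

/-- the family of the classes modulo a subgroup -/
def quotF {M : Type} [CommGroup M] (A : Family M) (T : Subgroup M) : Family (M ⧸ T) where
  D K f := QuotientGroup.mk (A.D K f)
  map_add K hK f hf g hg := by rw [A.map_add K hK f hf g hg]; rfl
  map_ind K K' hK' h ψ := by rw [A.map_ind K K' hK' h ψ]

theorem quotF_eq {M : Type} [CommGroup M] (A : Family M) (T : Subgroup M) (K : SubQ)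
    (f : GQ → ℂ) : (quotF A T).D K f = 1 ↔ A.D K f ∈ T :=
  QuotientGroup.eq_one_iff _

/-- If the trivial characters are known, so are the quadratic ones. -/
theorem quad_known {M : Type} [CommGroup M] (A : Family M)
    (h1 : ∀ K, IsNF K → ∀ ψ : LinChar K, (∀ g, ψ.hom g = 1) → A.D K ψ.fn = 1)
    {K : SubQ} (hK : IsNF K) (ψ : LinChar K) (h2 : ∀ g, ψ.hom g ^ 2 = 1) : A.D K ψ.fn = 1 := by
  by_cases hne : ∃ g, ψ.hom g ≠ 1
  swap
  · push Not at hne
    exact h1 K hK ψ hne
  obtain ⟨K', hK', hle, hfix, hD⟩ := Pool.Agent.TH965.St.quad_field (K := K.toIF) hK ψ.old h2 hne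
  have e := hD A.old Pool.Agent.TH965.St.LinChar.one
  have e1 : A.old.D K' ((Pool.Agent.TH965.St.LinChar.one :
      Pool.Agent.TH965.St.LinChar K.toIF).res hle).fn = 1 :=
    h1 (K' : SubQ) hK' (LinChar.new (K := (K' : SubQ)) ((Pool.Agent.TH965.St.LinChar.one :
      Pool.Agent.TH965.St.LinChar K.toIF).res hle)) (fun g => rfl)
  have e2 : A.old.D K.toIF (Pool.Agent.TH965.St.LinChar.one :
      Pool.Agent.TH965.St.LinChar K.toIF).fn = 1 :=
    h1 K hK (LinChar.new (K := K) (Pool.Agent.TH965.St.LinChar.one)) (fun g => rfl)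
  have e3 : ((Pool.Agent.TH965.St.LinChar.one :
      Pool.Agent.TH965.St.LinChar K.toIF).mul ψ.old).fn = ψ.fn := by
    have : ψ.fn = ψ.old.fn := rfl
    rw [this]
    refine fn_ext fun g => ?_
    show (1 : ℂˣ) * ψ.hom g = ψ.hom g
    rw [one_mul]
  rw [e1, e2, one_mul, e3] at e
  exact e.symm

theorem card_two {ι : Type} [DecidableEq ι] (S : Finset ι) (P Q : ι → Prop) [DecidablePred P]
    [DecidablePred Q] (h : ∀ i ∈ S, P i ∨ Q i) :
    S.card ≤ (S.filter P).card + (S.filter Q).card := by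
  refine le_trans (Finset.card_le_card ?_) (Finset.card_union_le _ _)
  intro i hi
  rw [Finset.mem_union, Finset.mem_filter, Finset.mem_filter]
  rcases h i hi with h1 | h1
  · exact Or.inl ⟨hi, h1⟩
  · exact Or.inr ⟨hi, h1⟩

end Pool.Agent.TH890.FN
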