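import Pool.Agent.TH890.FN.Base

open NumberField

namespace Pool.Agent.TH890.FN

open Pool.Agent.TH965.Stk

/-- The field generated over `K` by `s`. -/
noncomputable def adj (K : SubQ) (s : AlgebraicClosure ℚ) : SubQ :=
  (K.toIF ⊔ IntermediateField.adjoin ℚ {s} : IntermediateField ℚ (AlgebraicClosure ℚ))

open Classical in
/-- `φ` is the twist of `ψ` by the quadratic character of `K(s)/K`, `s^2` in `K`. -/
def IsTwist {K : SubQ} (ψ : LinChar K) (s : AlgebraicClosure ℚ) (φ : LinChar K) : Prop :=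
  ∀ g : G K, φ.hom g = if (g : GQ).toAut s = s then ψ.hom g else -ψ.hom g

/-- `φ` is the restriction of `ψ` to `K(s)`. -/
def IsLift {K : SubQ} (ψ : LinChar K) (s : AlgebraicClosure ℚ) (φ : LinChar (adj K s)) : Prop :=
  ∀ (g : GQ) (h : g ∈ G (adj K s)) (h' : g ∈ G K), φ.hom ⟨g, h⟩ = ψ.hom ⟨g, h'⟩

theorem dichotomy {M : Type} [CommGroup M] (A : Family M) {K : SubQ} (hK : IsNF K)
    {s : AlgebraicClosure ℚ} (hs0 : s ≠ 0) (hs : s ^ 2 ∈ K.toIF) (ψ : LinChar K)
    (h : A.D K ψ.fn ≠ 1) :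
    (∃ φ : LinChar K, IsTwist ψ s φ ∧ A.D K φ.fn ≠ 1) ∨
    (∃ φ : LinChar (adj K s), IsLift ψ s φ ∧ A.D (adj K s) φ.fn ≠ 1) := by
  classical
  obtain ⟨ω, h1, h2⟩ := exists_quad (K := K.toIF) hs0 hs
  let φ : LinChar K := LinChar.new (K := K) (ψ.old.mul ω)
  let φ' : LinChar (adj K s) := LinChar.new (K := adj K s) (ψ.old.res (K' := (K.toIF ⊔ IntermediateField.adjoin ℚ {s} :
      IntermediateField ℚ (AlgebraicClosure ℚ))) le_sup_left)
  have hφ : IsTwist ψ s φ := by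
    intro g
    show ψ.hom g * ω.hom g = _
    split_ifs with hg
    · have : ω.hom g = 1 := h1 g hg
      rw [this, mul_one]
    · have : ω.hom g = -1 := h2 g hg
      rw [this]; simp
  have hφ' : IsLift ψ s φ' := fun g _ _ => rfl
  by_cases hsK : ∀ g ∈ K.toIF.fixingSubgroup, g s = s
  · right
    refine ⟨φ', hφ', ?_⟩
    have e := triv_rel (K := K.toIF) hsK ψ.old φ'.old hφ' A.old
    have e2 : A.D (adj K s) φ'.fn = A.D K ψ.fn := e
    rw [e2]
    exact h
  · push Not at hsK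
    have e := quad_rel (K := K.toIF) hK hs0 hs hsK ψ.old φ.old hφ φ'.old hφ' A.old
    have e2 : A.D (adj K s) φ'.fn = A.D K ψ.fn * A.D K φ.fn := e
    by_contra hcon
    push Not at hcon
    have e3 := hcon.1 φ hφ
    have e4 := hcon.2 φ' hφ'
    rw [e3, e4, mul_one] at e2
    exact h e2.symm

end Pool.Agent.TH890.FN
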